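import Pool.Agent.Helper70.NF.Fin

/-!
# The recursive program without a pushdown store: few cells, many states
-/

set_option autoImplicit false

namespace Pool.Agent.Helper70.NF

open Pool.Agent.Helper19.NF

section general

variable {U D B : Type} [Fintype D] [Nonempty D] [AddCommGroup B]

/-- An enumeration of the components. -/
noncomputable def en (D : Type) [Fintype D] : Fin (Fintype.card D) ≃ D := (Fintype.equivFin D).symm

/-- A frame: a position, the number of a component, a partial sum. -/
abbrev Frm (U D B : Type) [Fintype D] : Type := U × Fin (Fintype.card D) × B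

/-- The first component. -/
def k0 (D : Type) [Fintype D] [Nonempty D] : Fin (Fintype.card D) := ⟨0, Fintype.card_pos⟩

/-- Start of the evaluation of the position `p` of the row `i`. -/
noncomputable def desc (g : D → Equiv.Perm U) (x0 : U → B) : ℕ → List (Frm U D B) → U → List (Frm U D B) × B
  | 0, F, p => (F, x0 p)
  | i + 1, F, p => desc g x0 i ((p, k0 D, 0) :: F) (g (en D (k0 D)) p)

/-- What happens after the value of a child was used. -/
noncomputable def nxt (g : D → Equiv.Perm U) (x0 : U → B) (n : ℕ) (f : Frm U D B) (F : List (Frm U D B))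
    (w : D → B) : List (Frm U D B) × B :=
  if h : f.2.1.val + 1 < Fintype.card D then
    desc g x0 (n - (F.length + 1)) ((f.1, ⟨f.2.1.val + 1, h⟩, f.2.2 + w (en D f.2.1)) :: F)
      (g (en D ⟨f.2.1.val + 1, h⟩) f.1)
  else (F, f.2.2 + w (en D f.2.1))

/-- The transition system. -/
noncomputable def sys (g : D → Equiv.Perm U) (x0 : U → B) (n : ℕ) (q : List (Frm U D B) × B) :
    (B × ((D → B) → List (Frm U D B) × B)) ⊕ B :=
  match q.1 with
  | [] => Sum.inr q.2
  | f :: F => Sum.inl (q.2, nxt g x0 n f F)

theorem desc_length (g : D → Equiv.Perm U) (x0 : U → B) (i : ℕ) (F : List (Frm U D B)) (p : U) :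
    (desc g x0 i F p).1.length = F.length + i := by
  induction i generalizing F p with
  | zero => rfl
  | succ i ih =>
    rw [desc, ih, List.length_cons]
    omega

theorem nxt_length (g : D → Equiv.Perm U) (x0 : U → B) (n : ℕ) (f : Frm U D B) (F : List (Frm U D B))
    (w : D → B) (h : F.length + 1 ≤ n) : (nxt g x0 n f F w).1.length ≤ n := by
  unfold nxt
  split_ifs
  · rw [desc_length, List.length_cons]
    omega
  · show F.length ≤ n
    omega

/-- The evaluation ends. -/
theorem reach (g : D → Equiv.Perm U) (x0 : U → B) (n : ℕ) (I : B → D → B) (i : ℕ) (F : List (Frm U D B)) (p : U)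
    (h : F.length + i = n) : ∃ j v, (stp (sys g x0 n) I)^[j] (desc g x0 i F p) = (F, v) := by
  induction i generalizing F p with
  | zero => exact ⟨0, x0 p, rfl⟩
  | succ i ih =>
    have key : ∀ (t : ℕ) (k : Fin (Fintype.card D)) (s : B), k.val + t + 1 = Fintype.card D →
        ∃ j v, (stp (sys g x0 n) I)^[j] (desc g x0 i ((p, k, s) :: F) (g (en D k) p)) = (F, v) := by
      intro t
      induction t with
      | zero =>
        intro k s hk
        obtain ⟨j, v, hj⟩ := ih ((p, k, s) :: F) (g (en D k) p) (by rw [List.length_cons]; omega)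
        refine ⟨j + 1, s + I v (en D k), ?_⟩
        rw [Function.iterate_succ_apply', hj]
        show nxt g x0 n (p, k, s) F (I v) = _
        unfold nxt
        rw [dif_neg (by simp only; omega)]
      | succ t iht =>
        intro k s hk
        obtain ⟨j, v, hj⟩ := ih ((p, k, s) :: F) (g (en D k) p) (by rw [List.length_cons]; omega)
        obtain ⟨j', v', hj'⟩ := iht ⟨k.val + 1, by omega⟩ (s + I v (en D k)) (by simp only; omega)
        refine ⟨j' + (j + 1), v', ?_⟩
        rw [Function.iterate_add_apply, Function.iterate_succ_apply' _ j, hj, ← hj']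
        congr 1
        show nxt g x0 n (p, k, s) F (I v) = _
        unfold nxt
        rw [dif_pos (show k.val + 1 < Fintype.card D by omega), show n - (F.length + 1) = i by omega]
    obtain ⟨t, ht⟩ : ∃ t, (k0 D).val + t + 1 = Fintype.card D :=
      ⟨Fintype.card D - 1, by
        have : 0 < Fintype.card D := Fintype.card_pos
        show 0 + (Fintype.card D - 1) + 1 = Fintype.card D
        omega⟩
    exact key t (k0 D) 0 ht

/-- The position which is evaluated above the frames `F`. -/
noncomputable def top (g : D → Equiv.Perm U) (p0 : U) : List (Frm U D B) → U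
  | [] => p0
  | f :: _ => g (en D f.2.1) f.1

/-- The frames are right. -/
def OK (g : D → Equiv.Perm U) (x0 : U → B) (n : ℕ) (p0 : U) (I : B → D → B) : List (Frm U D B) → Prop
  | [] => True
  | f :: F => f.1 = top g p0 F ∧
      f.2.2 = ∑ k ∈ Finset.univ.filter (fun k => k < f.2.1), I (val g x0 I (n - (F.length + 1)) (g (en D k) f.1)) (en D k) ∧
      OK g x0 n p0 I F

/-- The invariant. -/
def Inv (g : D → Equiv.Perm U) (x0 : U → B) (n : ℕ) (p0 : U) (I : B → D → B) (q : List (Frm U D B) × B) : Prop :=
  q.1.length ≤ n ∧ OK g x0 n p0 I q.1 ∧ q.2 = val g x0 I (n - q.1.length) (top g p0 q.1)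

theorem inv_desc (g : D → Equiv.Perm U) (x0 : U → B) (n : ℕ) (p0 : U) (I : B → D → B) (i : ℕ)
    (F : List (Frm U D B)) (h : F.length + i = n) (hF : OK g x0 n p0 I F) :
    Inv g x0 n p0 I (desc g x0 i F (top g p0 F)) := by
  induction i generalizing F with
  | zero =>
    refine ⟨by show F.length ≤ n; omega, hF, ?_⟩
    show x0 _ = val g x0 I (n - F.length) _
    rw [show n - F.length = 0 by omega]
    rfl
  | succ i ih =>
    refine ih ((top g p0 F, k0 D, 0) :: F) (by rw [List.length_cons]; omega) ⟨rfl, ?_, hF⟩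
    show (0 : B) = _
    rw [Finset.filter_false_of_mem, Finset.sum_empty]
    intro k _ hk
    exact absurd hk (by simp [k0])

theorem inv_stp (g : D → Equiv.Perm U) (x0 : U → B) (n : ℕ) (p0 : U) (I : B → D → B) (q : List (Frm U D B) × B)
    (hq : Inv g x0 n p0 I q) : Inv g x0 n p0 I (stp (sys g x0 n) I q) := by
  obtain ⟨F, v⟩ := q
  cases F with
  | nil => exact hq
  | cons f F =>
    obtain ⟨hl, ⟨hf1, hf2, hF⟩, hv⟩ := hq
    obtain ⟨u, k, s⟩ := f
    simp only [List.length_cons] at hl
    have hv' : v = val g x0 I (n - (F.length + 1)) (g (en D k) u) := hv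
    show Inv g x0 n p0 I (nxt g x0 n (u, k, s) F (I v))
    have hsum : s + I v (en D k) = ∑ k' ∈ Finset.univ.filter (fun k' : Fin (Fintype.card D) => k'.val < k.val + 1),
        I (val g x0 I (n - (F.length + 1)) (g (en D k') u)) (en D k') := by
      have : (Finset.univ.filter (fun k' : Fin (Fintype.card D) => k'.val < k.val + 1)) =
          insert k (Finset.univ.filter (fun k' => k' < k)) := by
        ext k'
        simp only [Finset.mem_filter, Finset.mem_univ, true_and, Finset.mem_insert, Fin.lt_def, Fin.ext_iff]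
        omega
      rw [this, Finset.sum_insert (by simp), ← hv', add_comm]
      congr 1
    unfold nxt
    simp only
    split_ifs with h
    · have := inv_desc g x0 n p0 I (n - (F.length + 1)) ((u, ⟨k.val + 1, h⟩, s + I v (en D k)) :: F)
        (by rw [List.length_cons]; omega) ⟨hf1, by
          rw [hsum]
          rfl, hF⟩
      exact this
    · refine ⟨by show F.length ≤ n; omega, hF, ?_⟩
      show s + I v (en D k) = val g x0 I (n - F.length) (top g p0 F)
      rw [show n - F.length = (n - (F.length + 1)) + 1 by omega, val, hsum, ← hf1, Finset.filter_true_of_mem]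
      · exact Equiv.sum_comp (en D) fun c => I (val g x0 I (n - (F.length + 1)) (g c u)) c
      · intro k' _
        have := k'.2
        omega

theorem inv_iter (g : D → Equiv.Perm U) (x0 : U → B) (n : ℕ) (p0 : U) (I : B → D → B) (j : ℕ) :
    Inv g x0 n p0 I ((stp (sys g x0 n) I)^[j] (desc g x0 n [] p0)) := by
  induction j with
  | zero => exact inv_desc g x0 n p0 I n [] (by simp) trivial
  | succ j ih =>
    rw [Function.iterate_succ_apply']
    exact inv_stp g x0 n p0 I _ ih

/-- The relevant states. -/
def Kst (U D B : Type) [Fintype D] (n : ℕ) : Set (List (Frm U D B) × B) := {q | q.1.length ≤ n}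

/-- The code of a list. -/
def lcode (n : ℕ) (q : Kst U D B n) : (Fin n → Option (Frm U D B)) × B := (fun i => q.1.1[i.val]?, q.1.2)

omit [Nonempty D] [AddCommGroup B] in
theorem lcode_injective (n : ℕ) : Function.Injective (lcode (U := U) (D := D) (B := B) n) := by
  rintro ⟨⟨F, v⟩, hF⟩ ⟨⟨F', v'⟩, hF'⟩ h
  have h1 : ∀ i : Fin n, F[i.val]? = F'[i.val]? := fun i => congrFun (congrArg Prod.fst h) i
  have h2 : v = v' := congrArg Prod.snd h
  have h3 : F = F' := by
    apply List.ext_getElem?
    intro i
    by_cases hi : i < n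
    · exact h1 ⟨i, hi⟩
    · have a1 : F.length ≤ n := hF
      have a2 : F'.length ≤ n := hF'
      rw [List.getElem?_eq_none (by omega), List.getElem?_eq_none (by omega)]
  subst h2 h3
  rfl

instance [Fintype U] [Fintype B] (n : ℕ) : Finite (Kst U D B n) := Finite.of_injective _ (lcode_injective n)

omit [Nonempty D] [AddCommGroup B] in
theorem card_Kst [Fintype U] [Fintype B] (n : ℕ) :
    Nat.card (Kst U D B n) ≤ (Fintype.card U * (Fintype.card D * Fintype.card B) + 1) ^ n * Fintype.card B := by
  refine (Nat.card_le_card_of_injective _ (lcode_injective n)).trans (le_of_eq ?_)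
  rw [Nat.card_prod, Nat.card_fun, Nat.card_eq_fintype_card, Nat.card_eq_fintype_card, Nat.card_eq_fintype_card,
    Fintype.card_option, Fintype.card_prod, Fintype.card_prod, Fintype.card_fin, Fintype.card_fin]

/-- The recursive program. -/
theorem upper [Fintype U] [Fintype B] (g : D → Equiv.Perm U) (x0 : U → B) (n : ℕ) (p0 : U) :
    ∃ P : Prog B (D → B) B 1 (Nat.card (Kst U D B n)), ∀ I : B → D → B,
      P.Outputs I (P.start 0) (val g x0 I n p0) ∧
      ∀ b, P.Asks I (P.start 0) b → ∃ i < n, ∃ u, b = val g x0 I i u := by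
  obtain ⟨P, hP⟩ := exists_prog (Kst U D B n) (sys g x0 n) (by
    rintro ⟨F, v⟩ hF c f hf w
    cases F with
    | nil => exact absurd hf (by simp [sys])
    | cons a F =>
      have h2 : nxt g x0 n a F = f := congrArg Prod.snd (Sum.inl.inj hf)
      rw [← h2]
      exact nxt_length g x0 n a F w (by simpa [Kst] using hF)) (desc g x0 n [] p0)
    (show (desc g x0 n [] p0).1.length ≤ n by rw [desc_length]; simp)
  refine ⟨P, fun I => ⟨(hP I).1 _ ?_, fun b hb => ?_⟩⟩
  · obtain ⟨j, v, hj⟩ := reach g x0 n I n [] p0 (by simp)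
    refine ⟨j, ?_⟩
    have h1 := inv_iter g x0 n p0 I j
    rw [hj] at h1 ⊢
    have h2 : v = val g x0 I n p0 := h1.2.2
    rw [h2]
    rfl
  · obtain ⟨j, f, hj⟩ := (hP I).2 b hb
    have h1 := inv_iter g x0 n p0 I j
    generalize (stp (sys g x0 n) I)^[j] (desc g x0 n [] p0) = q at h1 hj
    obtain ⟨F, v⟩ := q
    cases F with
    | nil => exact absurd hj (by simp [sys])
    | cons a F =>
      have h2 : v = b := congrArg Prod.fst (Sum.inl.inj hj)
      have h3 : F.length + 1 ≤ n := h1.1
      exact ⟨n - (F.length + 1), by omega, _, by rw [← h2]; exact h1.2.2⟩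

end general

/-- The recursive program for the ring: `(2 |B|) ^ (4 n)` states. -/
theorem upper_ring {n m : ℕ} [NeZero m] {B : Type} [AddCommGroup B] [Fintype B] (hn : 1 ≤ n) (x0 : Pos n m → B)
    (hB : n * (n + 1) * m ≤ Fintype.card B) :
    ∃ S, S ≤ (2 * Fintype.card B) ^ (4 * n) ∧ ∃ P : Prog B (Dir m → B) B 1 S, ∀ I : B → Dir m → B,
      P.Outputs I (P.start 0) (out x0 I) ∧ Nat.card {b // P.Asks I (P.start 0) b} ≤ n * (n + 1) * m := by
  refine ⟨_, ?_, (upper (ring n m) x0 n (0, 0)).choose, fun I => ⟨((upper (ring n m) x0 n (0, 0)).choose_spec I).1, ?_⟩⟩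
  · refine (card_Kst n).trans ?_
    set b := Fintype.card B with hb
    have hm : 1 ≤ m := Nat.one_le_iff_ne_zero.2 (NeZero.ne m)
    have h1 : Fintype.card (Pos n m) = (n + 1) * m := by
      rw [Fintype.card_prod, ZMod.card, ZMod.card]
    have h2 : Fintype.card (Dir m) = 2 * m := by
      rw [Fintype.card_prod, ZMod.card, Fintype.card_bool]
    rw [h1, h2]
    have h3 : (n + 1) * m ≤ b := le_trans (by nlinarith [Nat.mul_le_mul_right ((n + 1) * m) hn]) hB
    have h4 : 2 * m ≤ b := le_trans (by nlinarith) h3
    have h5 : 1 ≤ b := le_trans (by nlinarith) h4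
    have h6 : (n + 1) * m * (2 * m * b) + 1 ≤ (2 * b) ^ 3 := by
      have : (n + 1) * m * (2 * m * b) ≤ b * (b * b) := Nat.mul_le_mul h3 (Nat.mul_le_mul h4 le_rfl)
      have h7 : 1 ≤ b * (b * b) := Nat.mul_pos h5 (Nat.mul_pos h5 h5)
      calc (n + 1) * m * (2 * m * b) + 1 ≤ b * (b * b) + b * (b * b) := Nat.add_le_add this h7
        _ ≤ (2 * b) ^ 3 := by ring_nf; omega
    calc ((n + 1) * m * (2 * m * b) + 1) ^ n * b ≤ ((2 * b) ^ 3) ^ n * (2 * b) ^ n := by
          refine Nat.mul_le_mul (Nat.pow_le_pow_left h6 n) ?_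
          calc b ≤ 2 * b := by omega
            _ = (2 * b) ^ 1 := (pow_one _).symm
            _ ≤ (2 * b) ^ n := Nat.pow_le_pow_right (by omega) hn
      _ = (2 * b) ^ (4 * n) := by
          rw [← pow_mul, ← pow_add]
          congr 1
          ring
  · set P := (upper (ring n m) x0 n (0, 0)).choose
    have h := ((upper (ring n m) x0 n (0, 0)).choose_spec I).2
    have hsub : {b | P.Asks I (P.start 0) b} ⊆
        Set.range fun y : Fin n × Pos n m => val (ring n m) x0 I y.1.val y.2 := by
      intro b hb
      obtain ⟨i, hi, u, hu⟩ := h b hb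
      exact ⟨(⟨i, hi⟩, u), hu.symm⟩
    calc Nat.card {b // P.Asks I (P.start 0) b} = Nat.card {b | P.Asks I (P.start 0) b} := rfl
      _ ≤ Nat.card (Set.range fun y : Fin n × Pos n m => val (ring n m) x0 I y.1.val y.2) :=
          Nat.card_mono (Set.finite_range _) hsub
      _ ≤ Nat.card (Fin n × Pos n m) := Finite.card_range_le _
      _ = n * (n + 1) * m := by
          rw [Nat.card_eq_fintype_card, Fintype.card_prod, Fintype.card_prod, ZMod.card, ZMod.card, Fintype.card_fin]
          ring

end Pool.Agent.Helper70.NF
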