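import Pool.Agent.Helper19.NF.Defs

/-!
# Programs from transition systems
-/

set_option autoImplicit false

namespace Pool.Agent.Helper70.NF

open Pool.Agent.Helper19.NF

variable {C W Z Q : Type}

/-- One step of a transition system. -/
def stp (act : Q → (C × (W → Q)) ⊕ Z) (I : C → W) (q : Q) : Q :=
  (act q).elim (fun t => t.2 (I t.1)) (fun _ => q)

/-- A transition system with finitely many relevant states is a program. -/
theorem exists_prog (K : Set Q) [Finite K] (act : Q → (C × (W → Q)) ⊕ Z)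
    (hK : ∀ q ∈ K, ∀ c f, act q = Sum.inl (c, f) → ∀ w, f w ∈ K) (q0 : Q) (h0 : q0 ∈ K) :
    ∃ P : Prog C W Z 1 (Nat.card K), ∀ I : C → W,
      (∀ z, (∃ j, act ((stp act I)^[j] q0) = Sum.inr z) → P.Outputs I (P.start 0) z) ∧
      ∀ c, P.Asks I (P.start 0) c → ∃ j f, act ((stp act I)^[j] q0) = Sum.inl (c, f) := by
  classical
  set e : K ≃ Fin (Nat.card K) := Finite.equivFin K with he
  set back : Q → Fin (Nat.card K) := fun q => if h : q ∈ K then e ⟨q, h⟩ else e ⟨q0, h0⟩ with hback
  have hb : ∀ q (h : q ∈ K), back q = e ⟨q, h⟩ := fun q h => by rw [hback]; exact dif_pos h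
  set P : Prog C W Z 1 (Nat.card K) :=
    ⟨fun _ => back q0, fun s => Sum.map (fun t => (t.1, fun w => back (t.2 w))) id (act (e.symm s).1)⟩ with hP
  have hact : ∀ q (h : q ∈ K), P.act (back q) = Sum.map (fun t => (t.1, fun w => back (t.2 w))) id (act q) := by
    intro q h
    rw [hb q h, hP]
    simp only [Equiv.symm_apply_apply]
  have hstepK : ∀ (I : C → W) q, q ∈ K → stp act I q ∈ K := by
    intro I q h
    unfold stp
    rcases ha : act q with ⟨c, f⟩ | z
    · exact hK q h c f ha (I c)
    · exact h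
  have hstep : ∀ (I : C → W) q, q ∈ K → P.step I (back q) = back (stp act I q) := by
    intro I q h
    unfold Prog.step stp
    rw [hact q h]
    rcases act q with ⟨c, f⟩ | z <;> rfl
  refine ⟨P, fun I => ?_⟩
  have hit : ∀ j, (stp act I)^[j] q0 ∈ K ∧ (P.step I)^[j] (P.start 0) = back ((stp act I)^[j] q0) := by
    intro j
    induction j with
    | zero => exact ⟨h0, rfl⟩
    | succ j ih =>
      rw [Function.iterate_succ_apply', Function.iterate_succ_apply', ih.2]
      exact ⟨hstepK I _ ih.1, hstep I _ ih.1⟩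
  constructor
  · rintro z ⟨j, hj⟩
    refine ⟨j, ?_⟩
    rw [(hit j).2, hact _ (hit j).1, hj]
    rfl
  · rintro c ⟨j, f, hj⟩
    rw [(hit j).2, hact _ (hit j).1] at hj
    rcases ha : act ((stp act I)^[j] q0) with ⟨c', f'⟩ | z
    · rw [ha] at hj
      simp only [Sum.map_inl, Sum.inl.injEq, Prod.mk.injEq] at hj
      exact ⟨j, f', by rw [ha, hj.1]⟩
    · rw [ha] at hj
      simp at hj

end Pool.Agent.Helper70.NF
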