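import Pool.Agent.Helper19.NF.Defs

/-!
# The sum over all sequences of labels
-/

set_option autoImplicit false

namespace Pool.Agent.Helper70.NF

open Pool.Agent.Helper19.NF

variable {n m : ℕ} [NeZero m]

/-- The weight of a label: `1 / x` times `K` for type 2, `K ^ m` for type 3. -/
noncomputable def wt (K x : ℝ) (ℓ : Label n m) : ℝ := if ℓ.2.isLeft then K / x else K ^ m

/-- F9: the sum over all labels. -/
theorem sum_wt (K x : ℝ) : ∑ L : Fin (n - 1) → Label n m, ∏ a, wt K x (L a) =
    (4 * m ^ 2 * K / x + 2 * m ^ 2 * n * K ^ m) ^ (n - 1) := by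
  rw [← Fintype.sum_pow]
  congr 1
  rw [Fintype.sum_prod_type]
  simp only [wt, Fintype.sum_sum_type, Sum.isLeft_inl, Sum.isLeft_inr, if_true, Bool.false_eq_true, if_false,
    Finset.sum_const, Finset.card_univ, Fintype.card_prod, Fintype.card_bool, ZMod.card, Fintype.card_fin, nsmul_eq_mul]
  push_cast
  ring

end Pool.Agent.Helper70.NF
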